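import Mathlib

/-! Project ES, block R2: a discrete one-sided maximal inequality (greedy from the left). -/

namespace Pool.Agent.Helper63.ES

theorem disc_max (Bad E : Finset ℕ)
    (h : ∀ j ∈ E, ∃ n : ℕ, 1 ≤ n ∧ n ≤ 2 * (Bad.filter (fun i => j ≤ i ∧ i < j + n)).card) :
    E.card ≤ 2 * Bad.card := by
  induction hk : E.card using Nat.strong_induction_on generalizing Bad E with
  | _ k ih =>
    subst hk
    rcases E.eq_empty_or_nonempty with rfl | hne
    · simp
    obtain ⟨n, hn, hn2⟩ := h (E.min' hne) (E.min'_mem hne)
    have hmin : ∀ i ∈ E, E.min' hne ≤ i := fun i hi => E.min'_le i hi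
    set j := E.min' hne with hj
    have hjE : j ∈ E := E.min'_mem hne
    have h1 : (E.filter (fun i => j + n ≤ i)).card < E.card := by
      refine Finset.card_lt_card ⟨Finset.filter_subset _ _, fun hs => ?_⟩
      have := (Finset.mem_filter.1 (hs hjE)).2
      omega
    have h2 := ih _ h1 (Bad.filter (fun i => j + n ≤ i)) (E.filter (fun i => j + n ≤ i)) (fun i hi => by
      rw [Finset.mem_filter] at hi
      obtain ⟨m, hm, hm2⟩ := h i hi.1
      refine ⟨m, hm, hm2.trans ?_⟩
      refine Nat.mul_le_mul_left 2 (Finset.card_le_card fun l hl => ?_)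
      rw [Finset.mem_filter] at hl
      rw [Finset.mem_filter, Finset.mem_filter]
      exact ⟨⟨hl.1, hi.2.trans hl.2.1⟩, hl.2⟩) rfl
    have h3 : E.card ≤ n + (E.filter (fun i => j + n ≤ i)).card := by
      have h4 := Finset.card_filter_add_card_filter_not (s := E) (fun i => j + n ≤ i)
      have h5 : (E.filter (fun i => ¬ j + n ≤ i)).card ≤ n := by
        calc (E.filter (fun i => ¬ j + n ≤ i)).card ≤ (Finset.Ico j (j + n)).card :=
              Finset.card_le_card fun i hi => by
                rw [Finset.mem_filter] at hi
                rw [Finset.mem_Ico]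
                exact ⟨hmin i hi.1, not_le.1 hi.2⟩
          _ = n := by rw [Nat.card_Ico]; omega
      omega
    have h6 : (Bad.filter (fun i => j ≤ i ∧ i < j + n)).card + (Bad.filter (fun i => j + n ≤ i)).card ≤ Bad.card := by
      rw [← Finset.card_union_of_disjoint]
      · exact Finset.card_le_card (Finset.union_subset (Finset.filter_subset _ _) (Finset.filter_subset _ _))
      · rw [Finset.disjoint_left]
        intro i hi hi2
        rw [Finset.mem_filter] at hi hi2
        omega
    omega

end Pool.Agent.Helper63.ES
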